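import Pool.Agent.J4H81.DK.Stm
import Pool.Agent.J4H18.GB.Bdx

/-!
# Project DK (helper81): (BDA), few vectors of constant terms have a determinant with many prime factors

After J4H18/GB/Bdx.lean (helper18).
-/

set_option autoImplicit false

namespace Pool.Agent.J4H17.DK

open Finset
open Pool.Agent.J4H32.MV Pool.Agent.J4H81.GB Pool.Agent.J4H81.DK
open Pool.Agent.J4H18.GB (fibreG sg_neg)

theorem cnt (hRK : S_RK) (w X R : ℕ) (A B β : ℤ) (ε : ℝ) (hw : 1 ≤ w) (hB : B ≠ 0) (hA : |A| ≤ R) (hBR : |B| ≤ R)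
    (hβ0 : 0 ≤ β) (hβ : β ≤ X) :
    (((Icc 1 X).filter (fun x : ℕ => A * β = B * (x : ℤ) ∨ ε < Sg w (A * β - B * (x : ℤ)))).card : ℝ) ≤
      1 + 32 * R * X * Real.exp (-(ε * w)) := by
  classical
  have h0 := hRK w (2 * R * X) ε hw
  set D : Finset ℕ := (Icc 1 (2 * R * X)).filter (fun h : ℕ => ε < Sg w (h : ℤ)) with hD
  have hbound : ∀ x ∈ Icc 1 X, |A * β - B * (x : ℤ)| ≤ 2 * R * X := by
    intro x hx
    rw [mem_Icc] at hx
    have hx2 : ((x : ℕ) : ℤ) ≤ X := by exact_mod_cast hx.2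
    have hR0 : (0 : ℤ) ≤ R := Int.natCast_nonneg R
    have e1 : |A * β| ≤ R * X := by
      rw [abs_mul, abs_of_nonneg hβ0]
      exact mul_le_mul hA hβ hβ0 hR0
    have e2 : |B * (x : ℤ)| ≤ R * X := by
      rw [abs_mul, abs_of_nonneg (Int.natCast_nonneg x)]
      exact mul_le_mul hBR hx2 (Int.natCast_nonneg x) hR0
    have e3 := abs_sub (A * β) (B * (x : ℤ))
    linarith
  have hinj : ∀ x y : ℕ, A * β - B * (x : ℤ) = A * β - B * (y : ℤ) → x = y := by
    intro x y h
    have h1 : B * (x : ℤ) = B * (y : ℤ) := by linarith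
    have h2 := mul_left_cancel₀ hB h1
    exact_mod_cast h2
  set S0 := (Icc 1 X).filter (fun x : ℕ => A * β - B * (x : ℤ) = 0) with hS0
  set Sp := (Icc 1 X).filter (fun x : ℕ => 0 < A * β - B * (x : ℤ) ∧ ε < Sg w (A * β - B * (x : ℤ))) with hSp
  set Sm := (Icc 1 X).filter (fun x : ℕ => A * β - B * (x : ℤ) < 0 ∧ ε < Sg w (A * β - B * (x : ℤ))) with hSm
  have hsub : (Icc 1 X).filter (fun x : ℕ => A * β = B * (x : ℤ) ∨ ε < Sg w (A * β - B * (x : ℤ))) ⊆
      S0 ∪ (Sp ∪ Sm) := by
    intro x hx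
    rw [mem_filter] at hx
    rcases lt_trichotomy (A * β - B * (x : ℤ)) 0 with h | h | h
    · refine mem_union_right _ (mem_union_right _ (mem_filter.2 ⟨hx.1, h, ?_⟩))
      rcases hx.2 with h3 | h3
      · omega
      · exact h3
    · exact mem_union_left _ (mem_filter.2 ⟨hx.1, h⟩)
    · refine mem_union_right _ (mem_union_left _ (mem_filter.2 ⟨hx.1, h, ?_⟩))
      rcases hx.2 with h3 | h3
      · omega
      · exact h3
  have c0 : S0.card ≤ 1 := by
    rw [card_le_one]
    intro x hx y hy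
    rw [hS0, mem_filter] at hx hy
    exact hinj x y (hx.2.trans hy.2.symm)
  have cp : Sp.card ≤ D.card := by
    apply Finset.card_le_card_of_injOn (fun x : ℕ => (A * β - B * (x : ℤ)).toNat)
    · intro x hx
      rw [Finset.mem_coe, hSp, mem_filter] at hx
      rw [Finset.mem_coe, hD, mem_filter, mem_Icc]
      have h1 : (((A * β - B * (x : ℤ)).toNat : ℕ) : ℤ) = A * β - B * (x : ℤ) := Int.toNat_of_nonneg hx.2.1.le
      have h2 := hbound x hx.1
      rw [abs_of_pos hx.2.1] at h2
      refine ⟨⟨?_, ?_⟩, ?_⟩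
      · show 1 ≤ (A * β - B * (x : ℤ)).toNat
        have := hx.2.1
        omega
      · show (A * β - B * (x : ℤ)).toNat ≤ 2 * R * X
        have h3 : (((A * β - B * (x : ℤ)).toNat : ℕ) : ℤ) ≤ ((2 * R * X : ℕ) : ℤ) := by
          rw [h1]; push_cast; exact h2
        exact_mod_cast h3
      · show ε < Sg w (((A * β - B * (x : ℤ)).toNat : ℕ) : ℤ)
        rw [h1]
        exact hx.2.2
    · intro x hx y hy hxy
      rw [Finset.mem_coe, hSp, mem_filter] at hx hy
      apply hinj
      rw [← Int.toNat_of_nonneg hx.2.1.le, ← Int.toNat_of_nonneg hy.2.1.le]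
      exact congrArg _ hxy
  have cm : Sm.card ≤ D.card := by
    apply Finset.card_le_card_of_injOn (fun x : ℕ => (-(A * β - B * (x : ℤ))).toNat)
    · intro x hx
      rw [Finset.mem_coe, hSm, mem_filter] at hx
      rw [Finset.mem_coe, hD, mem_filter, mem_Icc]
      have hpos : 0 < -(A * β - B * (x : ℤ)) := by linarith [hx.2.1]
      have h1 : (((-(A * β - B * (x : ℤ))).toNat : ℕ) : ℤ) = -(A * β - B * (x : ℤ)) := Int.toNat_of_nonneg hpos.le
      have h2 := hbound x hx.1
      rw [abs_of_neg hx.2.1] at h2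
      refine ⟨⟨?_, ?_⟩, ?_⟩
      · show 1 ≤ (-(A * β - B * (x : ℤ))).toNat
        omega
      · show (-(A * β - B * (x : ℤ))).toNat ≤ 2 * R * X
        have h3 : (((-(A * β - B * (x : ℤ))).toNat : ℕ) : ℤ) ≤ ((2 * R * X : ℕ) : ℤ) := by
          rw [h1]; push_cast; exact h2
        exact_mod_cast h3
      · show ε < Sg w (((-(A * β - B * (x : ℤ))).toNat : ℕ) : ℤ)
        rw [h1, sg_neg]
        exact hx.2.2
    · intro x hx y hy hxy
      rw [Finset.mem_coe, hSm, mem_filter] at hx hy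
      apply hinj
      have hx' : 0 ≤ -(A * β - B * (x : ℤ)) := by linarith [hx.2.1]
      have hy' : 0 ≤ -(A * β - B * (y : ℤ)) := by linarith [hy.2.1]
      have h3 : -(A * β - B * (x : ℤ)) = -(A * β - B * (y : ℤ)) := by
        rw [← Int.toNat_of_nonneg hx', ← Int.toNat_of_nonneg hy']
        exact congrArg _ hxy
      linarith
  have h1 : ((Icc 1 X).filter (fun x : ℕ => A * β = B * (x : ℤ) ∨ ε < Sg w (A * β - B * (x : ℤ)))).card ≤
      1 + (D.card + D.card) := by
    refine (card_le_card hsub).trans ((card_union_le _ _).trans (add_le_add c0 ((card_union_le _ _).trans (add_le_add cp cm))))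
  have h2 : (((Icc 1 X).filter (fun x : ℕ => A * β = B * (x : ℤ) ∨ ε < Sg w (A * β - B * (x : ℤ)))).card : ℝ) ≤
      1 + (D.card + D.card) := by exact_mod_cast h1
  push_cast at h0
  linarith

open Classical in
theorem one_pairA (hRK : S_RK) (k R w X : ℕ) (a : Fin (k + 1) → ℤ) (b₀ : ℕ) (ε : ℝ) (hw : 1 ≤ w) (hX : 1 ≤ X)
    (ha : ∀ j, a j ≠ 0) (haR : ∀ j, |a j| ≤ R) (hb : b₀ ≤ X) (i : Fin k) (j : Fin (k + 1)) (hij : i.succ ≠ j) :
    (((Fintype.piFinset (fun _ : Fin k => Icc 1 X)).filter (fun x =>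
      a i.succ * bs b₀ x j = a j * bs b₀ x i.succ ∨
        ε < Sg w (a i.succ * bs b₀ x j - a j * bs b₀ x i.succ))).card : ℝ) ≤
    (X : ℝ) ^ k / X + 32 * R * (X : ℝ) ^ k * Real.exp (-(ε * w)) := by
  have hX0 : (0 : ℝ) < X := by exact_mod_cast hX
  have hk : 1 ≤ k := Nat.one_le_iff_ne_zero.2 (by rintro rfl; exact i.elim0)
  have hle : ∀ m ∈ Fintype.piFinset (fun _ : Fin k => Icc 1 X), bs b₀ m j ≤ X := by
    intro m hm
    rw [Fintype.mem_piFinset] at hm
    refine Fin.cases ?_ (fun l => ?_) j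
    · exact hb
    · exact (mem_Icc.1 (hm l)).2
  have hupd : ∀ m : Fin k → ℕ, bs b₀ (Function.update m i 0) j = bs b₀ m j := by
    intro m
    revert hij
    refine Fin.cases ?_ (fun l => ?_) j
    · intro _
      rfl
    · intro hl
      have hl' : l ≠ i := fun h => hl (by rw [h])
      change Function.update m i 0 l = m l
      rw [Function.update_of_ne hl']
  have h1 := fibreG k (Icc 1 X) i ((Fintype.piFinset (fun _ : Fin k => Icc 1 X)).filter (fun x =>
      a i.succ * bs b₀ x j = a j * bs b₀ x i.succ ∨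
        ε < Sg w (a i.succ * bs b₀ x j - a j * bs b₀ x i.succ)))
    (1 + 32 * R * X * Real.exp (-(ε * w))) (by
      intro t ht l
      exact (Fintype.mem_piFinset.1 (mem_filter.1 ht).1) l) (by
      intro t'
      by_cases hβ : bs b₀ t' j ≤ X
      · refine ⟨_, cnt hRK w X R (a i.succ) (a j) (bs b₀ t' j) ε hw (ha j) (haR i.succ) (haR j)
          (Int.natCast_nonneg _) (by exact_mod_cast hβ), ?_⟩
        intro t ht htt
        rw [mem_filter] at ht
        rw [mem_filter]
        have h2 : bs b₀ t' j = bs b₀ t j := by rw [← htt, hupd]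
        rw [h2]
        exact ⟨(Fintype.mem_piFinset.1 ht.1) i, ht.2⟩
      · refine ⟨∅, ?_, ?_⟩
        · rw [card_empty, Nat.cast_zero]
          positivity
        · intro t ht htt
          exfalso
          apply hβ
          rw [← htt, hupd]
          exact hle t (mem_filter.1 ht).1)
  rw [Nat.card_Icc, Nat.add_sub_cancel] at h1
  refine h1.trans (le_of_eq ?_)
  obtain ⟨l, rfl⟩ := Nat.exists_eq_succ_of_ne_zero (Nat.one_le_iff_ne_zero.1 hk)
  rw [Nat.succ_eq_add_one, Nat.add_sub_cancel, pow_succ]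
  field_simp

theorem t_BDA : S_BDA := by
  intro hRK k R w X a b₀ ε hw hX ha haR hb
  classical
  have hX0 : (0 : ℝ) < X := by exact_mod_cast hX
  set B : ℝ := (X : ℝ) ^ k / X + 32 * R * (X : ℝ) ^ k * Real.exp (-(ε * w)) with hB
  have hB0 : 0 ≤ B := by positivity
  set Bd : Fin (k + 1) × Fin (k + 1) → Finset (Fin k → ℕ) := fun p =>
    (Fintype.piFinset (fun _ : Fin k => Icc 1 X)).filter (fun x => p.1 ≠ p.2 ∧
      (a p.1 * bs b₀ x p.2 = a p.2 * bs b₀ x p.1 ∨ ε < Sg w (a p.1 * bs b₀ x p.2 - a p.2 * bs b₀ x p.1))) with hBd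
  have hone : ∀ p, ((Bd p).card : ℝ) ≤ B := by
    rintro ⟨i, j⟩
    by_cases hij : i = j
    · have : Bd (i, j) = ∅ := by
        rw [hBd]
        apply Finset.filter_eq_empty_iff.2
        intro m _ h
        exact h.1 hij
      rw [this]
      simpa using hB0
    · revert hij
      refine Fin.cases ?_ (fun i' => ?_) i
      · intro hij
        obtain ⟨j', rfl⟩ : ∃ j', j = Fin.succ j' := Fin.exists_succ_eq.2 (Ne.symm hij)|>.imp
          fun _ h => h.symm
        refine le_trans ?_ (one_pairA hRK k R w X a b₀ ε hw hX ha haR hb j' 0 (Ne.symm hij))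
        have : Bd (0, Fin.succ j') ⊆ (Fintype.piFinset (fun _ : Fin k => Icc 1 X)).filter (fun x =>
            a j'.succ * bs b₀ x 0 = a 0 * bs b₀ x j'.succ ∨
              ε < Sg w (a j'.succ * bs b₀ x 0 - a 0 * bs b₀ x j'.succ)) := by
          intro m hm
          rw [hBd, mem_filter] at hm
          rw [mem_filter]
          refine ⟨hm.1, ?_⟩
          rcases hm.2.2 with h | h
          · exact Or.inl h.symm
          · right
            rwa [← sg_neg, neg_sub] at h
        have h2 := card_le_card this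
        refine le_trans ((Nat.cast_le (α := ℝ)).2 h2) (le_of_eq ?_)
        congr!
      · intro hij
        refine le_trans ?_ (one_pairA hRK k R w X a b₀ ε hw hX ha haR hb i' j hij)
        have : Bd (Fin.succ i', j) ⊆ (Fintype.piFinset (fun _ : Fin k => Icc 1 X)).filter (fun x =>
            a i'.succ * bs b₀ x j = a j * bs b₀ x i'.succ ∨
              ε < Sg w (a i'.succ * bs b₀ x j - a j * bs b₀ x i'.succ)) := by
          intro m hm
          rw [hBd, mem_filter] at hm
          rw [mem_filter]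
          exact ⟨hm.1, hm.2.2⟩
        have h2 := card_le_card this
        refine le_trans ((Nat.cast_le (α := ℝ)).2 h2) (le_of_eq ?_)
        congr!
  have hsub : (Fintype.piFinset (fun _ : Fin k => Icc 1 X)).filter (fun x =>
      ∃ i j : Fin (k + 1), i ≠ j ∧
        (a i * bs b₀ x j = a j * bs b₀ x i ∨ ε < Sg w (a i * bs b₀ x j - a j * bs b₀ x i))) ⊆ univ.biUnion Bd := by
    intro m hm
    rw [mem_filter] at hm
    obtain ⟨hm1, i, j, hij, h⟩ := hm
    rw [mem_biUnion]
    refine ⟨(i, j), mem_univ _, ?_⟩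
    rw [hBd, mem_filter]
    exact ⟨hm1, hij, h⟩
  calc (((Fintype.piFinset (fun _ : Fin k => Icc 1 X)).filter (fun x =>
      ∃ i j : Fin (k + 1), i ≠ j ∧
        (a i * bs b₀ x j = a j * bs b₀ x i ∨ ε < Sg w (a i * bs b₀ x j - a j * bs b₀ x i)))).card : ℝ)
      ≤ ((univ.biUnion Bd).card : ℝ) := by exact_mod_cast card_le_card hsub
    _ ≤ ∑ p, ((Bd p).card : ℝ) := by exact_mod_cast card_biUnion_le
    _ ≤ ∑ p : Fin (k + 1) × Fin (k + 1), B := sum_le_sum fun p _ => hone p
    _ = ((k : ℝ) + 1) ^ 2 * B := by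
      rw [sum_const, card_univ, Fintype.card_prod, Fintype.card_fin, nsmul_eq_mul]
      push_cast
      ring

end Pool.Agent.J4H17.DK
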