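import Pool.Agent.J4H81.DK.Stm

/-!
# Project DK (helper81): (CRA), a multiplier whose prime factors divide `W` can be removed
-/

set_option autoImplicit false

namespace Pool.Agent.J4H17.DK

open Finset
open Pool.Agent.J4H81.PT Pool.Agent.J4H32.MV Pool.Agent.J4H81.GB Pool.Agent.J4H81.DK

theorem t_CRA : S_CRA := by
  classical
  intro W Q α C hα hαW
  set N : ℕ := ∏ p ∈ (range (Q + 1)).filter (fun p => p.Prime ∧ ¬ p ∣ W), p with hN
  have hN0 : 0 < N := by
    rw [hN]
    apply prod_pos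
    intro p hp
    rw [mem_filter] at hp
    exact hp.2.1.pos
  have hcop : Nat.Coprime α N := by
    rw [hN]
    apply Nat.Coprime.prod_right
    intro p hp
    rw [mem_filter] at hp
    rw [Nat.coprime_comm, Nat.Prime.coprime_iff_not_dvd hp.2.1]
    exact fun h => hp.2.2 (hαW p hp.2.1 h)
  have hic : IsCoprime (α : ℤ) (N : ℤ) := Nat.isCoprime_iff_coprime.2 hcop
  obtain ⟨u, v, huv⟩ := hic
  have hNz : (0 : ℤ) < (N : ℤ) := by exact_mod_cast hN0
  have hc : ((((u * C) % N).toNat : ℕ) : ℤ) = (u * C) % N := Int.toNat_of_nonneg (Int.emod_nonneg _ hNz.ne')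
  have hdvd : (N : ℤ) ∣ (α : ℤ) * ((((u * C) % N).toNat : ℕ) : ℤ) - C := by
    rw [hc]
    have h1 : (u * C) % N = u * C - N * ((u * C) / N) := by
      have := Int.emod_add_mul_ediv (u * C) N
      linarith
    rw [h1]
    refine ⟨-(v * C + α * ((u * C) / N)), ?_⟩
    linear_combination C * huv
  have hp : ∀ p : ℕ, p.Prime → p ≤ Q → ¬ p ∣ W → (p : ℤ) ∣ (α : ℤ) * ((((u * C) % N).toNat : ℕ) : ℤ) - C := by
    intro p hpp hpQ hpW
    refine dvd_trans ?_ hdvd
    have : p ∣ N := by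
      rw [hN]
      exact dvd_prod_of_mem (fun p => p) (mem_filter.2 ⟨mem_range.2 (by omega), hpp, hpW⟩)
    exact_mod_cast this
  refine ⟨((u * C) % N).toNat, fun s => ?_, hp⟩
  set C' : ℕ := ((u * C) % N).toNat with hC'
  unfold GG
  refine sum_congr rfl fun q hq' => ?_
  rw [mem_QQ] at hq'
  unfold hq
  refine prod_congr rfl fun p hpf => ?_
  have hpp := Nat.prime_of_mem_primeFactors hpf
  have hpq : p ∣ q := Nat.dvd_of_mem_primeFactors hpf
  have hle : p ≤ Q := (Nat.le_of_dvd (by omega) hpq).trans hq'.1.2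
  have hpW : ¬ p ∣ W := by
    intro h
    have h1 := Nat.dvd_gcd hpq h
    rw [Nat.Coprime.gcd_eq_one hq'.2.2] at h1
    exact hpp.one_lt.ne' (Nat.dvd_one.1 h1)
  have hpα : ¬ (p : ℤ) ∣ (α : ℤ) := by
    intro h
    exact hpW (hαW p hpp (by exact_mod_cast h))
  have hpi : Prime (p : ℤ) := Nat.prime_iff_prime_int.1 hpp
  have h1 := hp p hpp hle hpW
  have e : ((p : ℤ) ∣ C + W * (α * s)) ↔ (p : ℤ) ∣ ((C' + W * s : ℕ) : ℤ) := by
    have e1 : C + W * (α * s) = (α : ℤ) * ((C' + W * s : ℕ) : ℤ) - ((α : ℤ) * (C' : ℤ) - C) := by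
      push_cast
      ring
    rw [e1, dvd_sub_left h1]
    constructor
    · intro h
      exact (hpi.dvd_or_dvd h).resolve_left hpα
    · intro h
      exact Dvd.dvd.mul_left h _
  simp only [e]

end Pool.Agent.J4H17.DK
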