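import Pool.Agent.J4H81.DK.Stm

/-!
# Project DK (helper81): (MBA), second moments of products of the model with multipliers
-/

set_option autoImplicit false

namespace Pool.Agent.J4H17.DK

open Finset
open Pool.Agent.J4H81.PT Pool.Agent.J4H32.MV Pool.Agent.J4H81.GB Pool.Agent.J4H81.DK

theorem t_MBA : S_MBA' := by
  intro hCR hMB K W Q T α C S hQ hT hα hp
  choose C' h1 h2 using fun j => hCR W Q (α j) (C j) (hα j) (hp j)
  refine le_trans (le_of_eq ?_) (hMB K W Q T C' S hQ hT)
  apply sum_congr rfl
  intro s _
  apply prod_congr rfl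
  intro j _
  rw [h1 j s]

end Pool.Agent.J4H17.DK
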